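import Pool.Agent.R3B.StmtsB

set_option autoImplicit false

namespace Pool.Agent.R3B.H15

open Set Filter Topology MeasureTheory

namespace ONEx

/-- cut-off -/
noncomputable def chi (ℓ δ r : ℝ) : ℝ :=
  Real.smoothTransition ((r - δ) / δ) * Real.smoothTransition ((ℓ - δ - r) / δ)

lemma chi_nonneg (ℓ δ r : ℝ) : 0 ≤ chi ℓ δ r :=
  mul_nonneg (Real.smoothTransition.nonneg _) (Real.smoothTransition.nonneg _)

lemma chi_le_one (ℓ δ r : ℝ) : chi ℓ δ r ≤ 1 :=
  mul_le_one₀ (Real.smoothTransition.le_one _) (Real.smoothTransition.nonneg _)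
    (Real.smoothTransition.le_one _)

lemma chi_contDiff (ℓ δ : ℝ) : ContDiff ℝ ((⊤ : ℕ∞) : WithTop ℕ∞) (chi ℓ δ) := by
  unfold chi
  apply ContDiff.mul
  · exact Real.smoothTransition.contDiff.comp ((contDiff_id.sub contDiff_const).div_const _)
  · exact Real.smoothTransition.contDiff.comp
      (((contDiff_const.sub contDiff_const).sub contDiff_id).div_const _)

lemma chi_left {ℓ δ r : ℝ} (hδ : 0 < δ) (hr : r ≤ δ) : chi ℓ δ r = 0 := by
  unfold chi
  rw [Real.smoothTransition.zero_of_nonpos (div_nonpos_of_nonpos_of_nonneg (by linarith) hδ.le),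
    zero_mul]

lemma chi_right {ℓ δ r : ℝ} (hδ : 0 < δ) (hr : ℓ - δ ≤ r) : chi ℓ δ r = 0 := by
  unfold chi
  rw [Real.smoothTransition.zero_of_nonpos (x := (ℓ - δ - r) / δ)
    (div_nonpos_of_nonpos_of_nonneg (by linarith) hδ.le), mul_zero]

lemma chi_mid {ℓ δ r : ℝ} (hδ : 0 < δ) (h1 : 2 * δ ≤ r) (h2 : r ≤ ℓ - 2 * δ) :
    chi ℓ δ r = 1 := by
  unfold chi
  rw [Real.smoothTransition.one_of_one_le (x := (r - δ) / δ)
      (by rw [le_div_iff₀ hδ]; linarith),
    Real.smoothTransition.one_of_one_le (x := (ℓ - δ - r) / δ)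
      (by rw [le_div_iff₀ hδ]; linarith), mul_one]

lemma int_chi {ℓ δ : ℝ} (hδ : 0 < δ) (hℓ : 8 * δ ≤ ℓ) :
    ∫ r in (0 : ℝ)..ℓ, (1 - chi ℓ δ r) ≤ 4 * δ := by
  have hc : Continuous fun r => 1 - chi ℓ δ r := continuous_const.sub (chi_contDiff ℓ δ).continuous
  have hi : ∀ a b : ℝ, IntervalIntegrable (fun r => 1 - chi ℓ δ r) volume a b :=
    fun a b => hc.intervalIntegrable a b
  rw [← intervalIntegral.integral_add_adjacent_intervals (hi 0 (2 * δ)) (hi (2 * δ) ℓ),
    ← intervalIntegral.integral_add_adjacent_intervals (hi (2 * δ) (ℓ - 2 * δ))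
      (hi (ℓ - 2 * δ) ℓ)]
  have h1 : ∫ r in (0 : ℝ)..(2 * δ), (1 - chi ℓ δ r) ≤ ∫ _r in (0 : ℝ)..(2 * δ), (1 : ℝ) := by
    apply intervalIntegral.integral_mono_on (by linarith) (hi _ _) (by simp)
    intro r _
    have := chi_nonneg ℓ δ r
    linarith
  have h2 : ∫ r in (2 * δ)..(ℓ - 2 * δ), (1 - chi ℓ δ r) ≤
      ∫ _r in (2 * δ)..(ℓ - 2 * δ), (0 : ℝ) := by
    apply intervalIntegral.integral_mono_on (by linarith) (hi _ _) (by simp)
    intro r hr
    rw [chi_mid hδ hr.1 hr.2]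
    simp
  have h3 : ∫ r in (ℓ - 2 * δ)..ℓ, (1 - chi ℓ δ r) ≤ ∫ _r in (ℓ - 2 * δ)..ℓ, (1 : ℝ) := by
    apply intervalIntegral.integral_mono_on (by linarith) (hi _ _) (by simp)
    intro r _
    have := chi_nonneg ℓ δ r
    linarith
  simp only [intervalIntegral.integral_const, smul_eq_mul, mul_one, mul_zero] at h1 h2 h3
  linarith

end ONEx

open ONEx

theorem one : OneStmt := by
  intro ℓ ε g hℓ hε hg hg0
  -- constants
  obtain ⟨K, hK⟩ := isCompact_Icc.exists_bound_of_continuousOn hg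
  have hK0 : 0 ≤ K := (norm_nonneg _).trans (hK 0 ⟨le_rfl, hℓ.le⟩)
  set L : ℝ := K + 1 with hL
  have hL1 : 1 ≤ L := by linarith
  set Q : ℝ := 2 * ℓ * (3 + 2 / ℓ) ^ 2 + 1 with hQ
  have hQ0 : 0 < Q := by positivity
  set τ : ℝ := min 1 (ε / Q) with hτ
  have hτ0 : 0 < τ := lt_min one_pos (by positivity)
  have hτ1 : τ ≤ 1 := min_le_left _ _
  have hτQ : τ * Q ≤ ε := by
    have := min_le_right 1 (ε / Q)
    calc τ * Q ≤ ε / Q * Q := mul_le_mul_of_nonneg_right this hQ0.le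
      _ = ε := div_mul_cancel₀ _ hQ0.ne'
  set δ : ℝ := min (ℓ / 8) (τ / (8 * L ^ 2)) with hδ
  have hδ0 : 0 < δ := lt_min (by positivity) (by positivity)
  have hδℓ : 8 * δ ≤ ℓ := by
    have := min_le_left (ℓ / 8) (τ / (8 * L ^ 2))
    linarith
  have hδL : 8 * δ * L ^ 2 ≤ τ := by
    have h1 : δ ≤ τ / (8 * L ^ 2) := min_le_right _ _
    rw [le_div_iff₀ (by positivity)] at h1
    linarith
  have hδL1 : 4 * δ * L ≤ τ := by nlinarith
  obtain ⟨p, hp⟩ := exists_polynomial_near_of_continuousOn 0 ℓ g hg τ hτ0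
  have hχc : Continuous (chi ℓ δ) := (chi_contDiff ℓ δ).continuous
  have hpc : Continuous fun r => p.eval r := p.continuous
  have hW := int_chi hδ0 hδℓ
  have hint1 : ∫ r in (0 : ℝ)..ℓ, (1 - chi ℓ δ r) = ℓ - ∫ r in (0 : ℝ)..ℓ, chi ℓ δ r := by
    rw [intervalIntegral.integral_sub (by simp) (hχc.intervalIntegrable _ _)]
    simp
  set S : ℝ := ∫ r in (0 : ℝ)..ℓ, chi ℓ δ r with hS
  have hSl : ℓ / 2 ≤ S := by linarith
  have hS0 : 0 < S := by linarith
  set m : ℝ := (∫ r in (0 : ℝ)..ℓ, chi ℓ δ r * p.eval r) / S with hm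
  -- pointwise bound
  have hpt : ∀ r ∈ Icc 0 ℓ, |chi ℓ δ r * p.eval r - g r| ≤ τ + L * (1 - chi ℓ δ r) := by
    intro r hr
    have h1 := (hp r hr).le
    have h2 := hK r hr
    rw [Real.norm_eq_abs] at h2
    have h3 : |p.eval r| ≤ L := by
      calc |p.eval r| = |(p.eval r - g r) + g r| := by rw [sub_add_cancel]
        _ ≤ |p.eval r - g r| + |g r| := abs_add_le _ _
        _ ≤ L := by linarith
    have h4 := chi_le_one ℓ δ r
    calc |chi ℓ δ r * p.eval r - g r| = |(p.eval r - g r) - (1 - chi ℓ δ r) * p.eval r| := by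
          congr 1; ring
      _ ≤ |p.eval r - g r| + |(1 - chi ℓ δ r) * p.eval r| := abs_sub _ _
      _ ≤ τ + L * (1 - chi ℓ δ r) := by
          rw [abs_mul, abs_of_nonneg (by linarith : (0 : ℝ) ≤ 1 - chi ℓ δ r)]
          have := mul_le_mul_of_nonneg_left h3 (by linarith : (0 : ℝ) ≤ 1 - chi ℓ δ r)
          linarith
  have hgi : IntervalIntegrable g volume 0 ℓ := by
    apply ContinuousOn.intervalIntegrable
    rw [uIcc_of_le hℓ.le]
    exact hg
  have hχpi : IntervalIntegrable (fun r => chi ℓ δ r * p.eval r) volume 0 ℓ :=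
    (hχc.mul hpc).intervalIntegrable _ _
  have h1χi : IntervalIntegrable (fun r => τ + L * (1 - chi ℓ δ r)) volume 0 ℓ :=
    (continuous_const.add (continuous_const.mul (continuous_const.sub hχc))).intervalIntegrable _ _
  have hmS : |∫ r in (0 : ℝ)..ℓ, chi ℓ δ r * p.eval r| ≤ τ * ℓ + L * (4 * δ) := by
    have e1 : ∫ r in (0 : ℝ)..ℓ, chi ℓ δ r * p.eval r =
        ∫ r in (0 : ℝ)..ℓ, (chi ℓ δ r * p.eval r - g r) := by
      rw [intervalIntegral.integral_sub hχpi hgi, hg0, sub_zero]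
    rw [e1]
    refine (intervalIntegral.abs_integral_le_integral_abs hℓ.le).trans ?_
    have e2 : ∫ r in (0 : ℝ)..ℓ, |chi ℓ δ r * p.eval r - g r| ≤
        ∫ r in (0 : ℝ)..ℓ, (τ + L * (1 - chi ℓ δ r)) :=
      intervalIntegral.integral_mono_on hℓ.le (hχpi.sub hgi).abs h1χi hpt
    refine e2.trans ?_
    have hci : IntervalIntegrable (fun r => L * (1 - chi ℓ δ r)) volume 0 ℓ :=
      (continuous_const.mul (continuous_const.sub hχc)).intervalIntegrable _ _
    have hcc : IntervalIntegrable (fun _ : ℝ => τ) volume 0 ℓ :=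
      continuous_const.intervalIntegrable _ _
    rw [intervalIntegral.integral_add hcc hci, intervalIntegral.integral_const_mul]
    simp only [intervalIntegral.integral_const, smul_eq_mul, sub_zero]
    have := mul_le_mul_of_nonneg_left hW (by linarith : (0 : ℝ) ≤ L)
    linarith
  have hmb : |m| ≤ 2 / ℓ * (τ * ℓ + τ) := by
    rw [hm, abs_div, abs_of_pos hS0, div_le_iff₀ hS0]
    have h5 : τ * ℓ + L * (4 * δ) ≤ τ * ℓ + τ := by linarith
    have h6 : 0 ≤ τ * ℓ + τ := by positivity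
    calc |∫ r in (0 : ℝ)..ℓ, chi ℓ δ r * p.eval r| ≤ τ * ℓ + τ := hmS.trans h5
      _ = 2 / ℓ * (τ * ℓ + τ) * (ℓ / 2) := by field_simp
      _ ≤ 2 / ℓ * (τ * ℓ + τ) * S := mul_le_mul_of_nonneg_left hSl (by positivity)
  -- the function
  let g3 : ℝ → ℝ := fun r => chi ℓ δ r * (p.eval r - m)
  have hg3 : ∀ r, g3 r = chi ℓ δ r * (p.eval r - m) := fun r => rfl
  have hps : ContDiff ℝ ((⊤ : ℕ∞) : WithTop ℕ∞) fun r => p.eval r := by
    have h := p.contDiff_aeval (𝕜 := ℝ) ((⊤ : ℕ∞) : WithTop ℕ∞)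
    simpa only [Polynomial.coe_aeval_eq_eval] using h
  have hg3s : ContDiff ℝ ((⊤ : ℕ∞) : WithTop ℕ∞) g3 :=
    (chi_contDiff ℓ δ).mul (hps.sub contDiff_const)
  have hg3c : Continuous g3 := hg3s.continuous
  have hg3l : ∀ r, r ≤ δ → g3 r = 0 := fun r hr => by rw [hg3, chi_left hδ0 hr, zero_mul]
  have hg3r : ∀ r, ℓ - δ ≤ r → g3 r = 0 := fun r hr => by rw [hg3, chi_right hδ0 hr, zero_mul]
  have hg3i : ∫ r in (0 : ℝ)..ℓ, g3 r = 0 := by
    have e1 : ∀ r, g3 r = chi ℓ δ r * p.eval r - m * chi ℓ δ r := fun r => by rw [hg3]; ring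
    simp only [e1]
    have hmi : IntervalIntegrable (fun r => m * chi ℓ δ r) volume 0 ℓ :=
      (continuous_const.mul hχc).intervalIntegrable _ _
    rw [intervalIntegral.integral_sub hχpi hmi,
      intervalIntegral.integral_const_mul, ← hS, hm, div_mul_cancel₀ _ hS0.ne', sub_self]
  let ψ : ℝ → ℝ := fun r => ∫ s in (0 : ℝ)..r, g3 s
  have hder : ∀ r, HasDerivAt ψ (g3 r) r := fun r =>
    intervalIntegral.integral_hasDerivAt_right (hg3c.intervalIntegrable _ _)
      (hg3c.stronglyMeasurableAtFilter _ _) hg3c.continuousAt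
  have hdψ : deriv ψ = g3 := funext fun r => (hder r).deriv
  have hψs : ContDiff ℝ ((⊤ : ℕ∞) : WithTop ℕ∞) ψ := by
    rw [contDiff_infty_iff_deriv]
    refine ⟨fun r => (hder r).differentiableAt, ?_⟩
    rw [hdψ]
    exact hg3s
  have hψl : ∀ r, r ≤ δ → ψ r = 0 := by
    intro r hr
    apply intervalIntegral.integral_zero_ae
    refine Eventually.of_forall fun s hs => hg3l s ?_
    rcases le_total 0 r with h | h
    · rw [uIoc_of_le h] at hs
      exact hs.2.trans hr
    · rw [uIoc_of_ge h] at hs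
      exact hs.2.trans hδ0.le
  have hψr : ∀ r, ℓ - δ ≤ r → ψ r = 0 := by
    intro r hr
    have e1 : ψ r = (∫ s in (0 : ℝ)..ℓ, g3 s) + ∫ s in ℓ..r, g3 s :=
      (intervalIntegral.integral_add_adjacent_intervals (hg3c.intervalIntegrable _ _)
        (hg3c.intervalIntegrable _ _)).symm
    rw [e1, hg3i, zero_add]
    apply intervalIntegral.integral_zero_ae
    refine Eventually.of_forall fun s hs => hg3r s ?_
    rcases le_total ℓ r with h | h
    · rw [uIoc_of_le h] at hs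
      linarith [hs.1]
    · rw [uIoc_of_ge h] at hs
      linarith [hs.1]
  have hts : tsupport ψ ⊆ Icc δ (ℓ - δ) := by
    apply closure_minimal _ isClosed_Icc
    intro r hr
    rw [Function.mem_support] at hr
    constructor
    · by_contra h
      exact hr (hψl r (le_of_lt (not_le.1 h)))
    · by_contra h
      exact hr (hψr r (le_of_lt (not_le.1 h)))
  refine ⟨ψ, hψs, ?_, ?_, ?_⟩
  · exact isCompact_Icc.of_isClosed_subset (isClosed_tsupport ψ) hts
  · intro r hr
    have := hts hr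
    exact ⟨by linarith [this.1], by linarith [this.2]⟩
  · rw [hdψ]
    set x : ℝ := τ * (3 + 2 / ℓ) with hx
    have hx0 : 0 ≤ x := by positivity
    have hfin : ∀ r ∈ Icc 0 ℓ, (g r - g3 r) ^ 2 ≤ 2 * x ^ 2 + 2 * L ^ 2 * (1 - chi ℓ δ r) := by
      intro r hr
      have h1 := hpt r hr
      have h2 := chi_nonneg ℓ δ r
      have h3 := chi_le_one ℓ δ r
      have h4 : |g r - g3 r| ≤ x + L * (1 - chi ℓ δ r) := by
        have e1 : g r - g3 r = -(chi ℓ δ r * p.eval r - g r) + chi ℓ δ r * m := by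
          rw [hg3]; ring
        rw [e1]
        refine (abs_add_le _ _).trans ?_
        rw [abs_neg, abs_mul, abs_of_nonneg h2]
        have h5 : chi ℓ δ r * |m| ≤ |m| := by
          have := abs_nonneg m
          nlinarith
        have h6 : 2 / ℓ * (τ * ℓ + τ) = τ * (2 + 2 / ℓ) := by
          field_simp
        rw [h6] at hmb
        have h7 : x = τ + τ * (2 + 2 / ℓ) := by rw [hx]; ring
        linarith
      have h8 : (g r - g3 r) ^ 2 ≤ (x + L * (1 - chi ℓ δ r)) ^ 2 := by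
        rw [← sq_abs (g r - g3 r)]
        exact pow_le_pow_left₀ (abs_nonneg _) h4 2
      have h9 : (1 - chi ℓ δ r) ^ 2 ≤ 1 - chi ℓ δ r := by nlinarith
      have h10 : L ^ 2 * (1 - chi ℓ δ r) ^ 2 ≤ L ^ 2 * (1 - chi ℓ δ r) :=
        mul_le_mul_of_nonneg_left h9 (sq_nonneg _)
      nlinarith [sq_nonneg (x - L * (1 - chi ℓ δ r))]
    have hbi : IntervalIntegrable (fun r => 2 * x ^ 2 + 2 * L ^ 2 * (1 - chi ℓ δ r))
        volume 0 ℓ :=
      (continuous_const.add (continuous_const.mul (continuous_const.sub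
        hχc))).intervalIntegrable _ _
    have hli : IntervalIntegrable (fun r => (g r - g3 r) ^ 2) volume 0 ℓ := by
      apply ContinuousOn.intervalIntegrable
      rw [uIcc_of_le hℓ.le]
      exact (hg.sub hg3c.continuousOn).pow 2
    refine (intervalIntegral.integral_mono_on hℓ.le hli hbi hfin).trans ?_
    have hci : IntervalIntegrable (fun r => 2 * L ^ 2 * (1 - chi ℓ δ r)) volume 0 ℓ :=
      (continuous_const.mul (continuous_const.sub hχc)).intervalIntegrable _ _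
    have hcc : IntervalIntegrable (fun _ : ℝ => 2 * x ^ 2) volume 0 ℓ :=
      continuous_const.intervalIntegrable _ _
    rw [intervalIntegral.integral_add hcc hci, intervalIntegral.integral_const,
      intervalIntegral.integral_const_mul]
    simp only [smul_eq_mul, sub_zero]
    have h11 : 2 * L ^ 2 * ∫ r in (0 : ℝ)..ℓ, (1 - chi ℓ δ r) ≤ τ := by
      have := mul_le_mul_of_nonneg_left hW (by positivity : (0 : ℝ) ≤ 2 * L ^ 2)
      linarith
    have h12 : ℓ * (2 * x ^ 2) = τ * τ * (2 * ℓ * (3 + 2 / ℓ) ^ 2) := by rw [hx]; ring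
    have h13 : τ * τ * (2 * ℓ * (3 + 2 / ℓ) ^ 2) ≤ τ * (2 * ℓ * (3 + 2 / ℓ) ^ 2) := by
      apply mul_le_mul_of_nonneg_right _ (by positivity)
      nlinarith
    have h14 : τ * Q = τ * (2 * ℓ * (3 + 2 / ℓ) ^ 2) + τ := by rw [hQ]; ring
    linarith

end Pool.Agent.R3B.H15
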